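import Pool.Agent.Lib.MP_c7e7f6_eps.Main

/-!
# There is no Erdős point set on nine points
-/

set_option autoImplicit false

open Finset

noncomputable section

namespace Pool.Agent.Results.MP_c7e7f6_co.NoNinePoints

open Classical

/-- the Euclidean plane -/
abbrev Plane : Type := EuclideanSpace ℝ (Fin 2)

/-- the multiplicity of `d` in `P`: the number of two-element subsets `{x, y}` of `P` with
`|x - y| = d` -/
def mult (P : Finset Plane) (d : ℝ) : ℕ :=
  ((P.powersetCard 2).filter fun e => ∃ x ∈ e, ∃ y ∈ e, x ≠ y ∧ dist x y = d).card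

/-- `P` is an EPS(`n`) set: `n` points of the plane, no three of them collinear, no four of them
on a common circle, and there are pairwise distinct positive distances `d 0, ..., d (n - 2)`
such that `d k` has multiplicity exactly `k + 1` in `P` -/
structure EPS (n : ℕ) (P : Finset Plane) : Prop where
  card : P.card = n
  line : ∀ x ∈ P, ∀ y ∈ P, ∀ z ∈ P, x ≠ y → x ≠ z → y ≠ z →
    ¬ Collinear ℝ ({x, y, z} : Set Plane)
  circle : ∀ (o : Plane) (r : ℝ), (P.filter fun x => dist x o = r).card ≤ 3
  dists : ∃ d : Fin (n - 1) → ℝ, Function.Injective d ∧ (∀ k, 0 < d k) ∧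
    ∀ k, mult P (d k) = (k : ℕ) + 1

theorem card_offDiag_filter (P : Finset Plane) (d : ℝ) :
    (P.offDiag.filter fun p => dist p.1 p.2 = d).card = 2 * mult P d := by
  have h1 : (P.offDiag.filter fun p => dist p.1 p.2 = d) =
      ((P.powersetCard 2).filter fun e => ∃ x ∈ e, ∃ y ∈ e, x ≠ y ∧ dist x y = d).biUnion
        fun e => e.offDiag := by
    ext ⟨x, y⟩
    simp only [mem_filter, mem_offDiag, mem_biUnion, mem_powersetCard]
    constructor
    · rintro ⟨⟨hx, hy, hxy⟩, hd⟩
      refine ⟨{x, y}, ⟨⟨?_, card_pair hxy⟩, x, by simp, y, by simp, hxy, hd⟩, by simp, by simp,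
        hxy⟩
      intro z hz
      rcases mem_insert.1 hz with h | h
      · rw [h]; exact hx
      · rw [mem_singleton.1 h]; exact hy
    · rintro ⟨e, ⟨⟨he, hc⟩, a, ha, b, hb, hab, hd⟩, hx, hy, hxy⟩
      refine ⟨⟨he hx, he hy, hxy⟩, ?_⟩
      have h2 : e = {a, b} := by
        refine (eq_of_subset_of_card_le ?_ ?_).symm
        · intro z hz
          rcases mem_insert.1 hz with h | h
          · rw [h]; exact ha
          · rw [mem_singleton.1 h]; exact hb
        · rw [hc, card_pair hab]
      rw [h2] at hx hy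
      rcases mem_insert.1 hx with h3 | h3 <;> rcases mem_insert.1 hy with h4 | h4
      · exact absurd (h3.trans h4.symm) hxy
      · rw [h3, mem_singleton.1 h4]; exact hd
      · rw [mem_singleton.1 h3, h4, dist_comm]; exact hd
      · exact absurd ((mem_singleton.1 h3).trans (mem_singleton.1 h4).symm) hxy
  rw [h1, card_biUnion, mult, mul_comm, ← smul_eq_mul, ← sum_const]
  · refine sum_congr rfl fun e he => ?_
    rw [offDiag_card, (mem_powersetCard.1 (mem_filter.1 he).1).2]
  · intro e he e' he' hne
    rw [Function.onFun, disjoint_left]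
    rintro ⟨x, y⟩ h2 h3
    apply hne
    rw [mem_offDiag] at h2 h3
    have h4 : ∀ g : Finset Plane, g.card = 2 → x ∈ g → y ∈ g → g = {x, y} := by
      intro g hg hx hy
      refine (eq_of_subset_of_card_le ?_ ?_).symm
      · intro z hz
        rcases mem_insert.1 hz with h | h
        · rw [h]; exact hx
        · rw [mem_singleton.1 h]; exact hy
      · rw [hg, card_pair h2.2.2]
    rw [h4 e (mem_powersetCard.1 (mem_filter.1 he).1).2 h2.1 h2.2.1,
      h4 e' (mem_powersetCard.1 (mem_filter.1 he').1).2 h3.1 h3.2.1]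

/-- **There is no EPS(9) set.** -/
theorem result : ¬ ∃ P : Finset Plane, EPS 9 P := by
  rintro ⟨P, h⟩
  obtain ⟨d, -, -, hd⟩ := h.dists
  refine Pool.Agent.Lib.EPS9.final ⟨P, h.card, h.line, ?_, d, ?_⟩
  · rintro x hx y hy z hz w hw hxy hxz hxw hyz hyw hzw ⟨⟨o, r, hor⟩, -⟩
    have h1 : ({x, y, z, w} : Finset Plane) ⊆ P.filter fun x => dist x o = r := by
      intro u hu
      simp only [mem_insert, mem_singleton] at hu
      rw [mem_filter]
      rcases hu with rfl | rfl | rfl | rfl
      · exact ⟨hx, hor _ (by simp)⟩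
      · exact ⟨hy, hor _ (by simp)⟩
      · exact ⟨hz, hor _ (by simp)⟩
      · exact ⟨hw, hor _ (by simp)⟩
    have h2 : ({x, y, z, w} : Finset Plane).card = 4 := by
      rw [card_insert_of_notMem, card_insert_of_notMem, card_pair hzw]
      · simp [hyz, hyw]
      · simp [hxy, hxz, hxw]
    have h3 := (card_le_card h1).trans (h.circle o r)
    omega
  · intro i
    have h1 := card_offDiag_filter P (d i)
    rw [hd i] at h1
    convert h1 using 2

end Pool.Agent.Results.MP_c7e7f6_co.NoNinePoints
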